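import Pool.Agent.Lead.RookAll

namespace Pool.Agent.Results.MP_749578_co.NSUpper

open Pool.Agent.H18.RookB Pool.Agent.H18.RookD

theorem result (k : ℕ) (hk : 8 ≤ k) :
    (NS k : ℝ) ≤ (2 * k - 1) * ((k : ℝ) ^ 2 + 1) / 2 + (k ^ 2 / 4 + 8 * k) :=
  ((Pool.Agent.Lead.RookAll.all k (by omega)).2.1 hk).1

end Pool.Agent.Results.MP_749578_co.NSUpper
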