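import Pool.Agent.Lead.RookAll

namespace Pool.Agent.Results.MP_749578_co.SpLower

open Pool.Agent.H18.RookB Pool.Agent.H18.RookD

theorem result (k : ℕ) (hk : 2 ≤ k) :
    2 * (k : ℝ) ^ 2 / 3 - 30 * k ≤ NSsp k :=
  (Pool.Agent.Lead.RookAll.all k hk).1.2.2.2

end Pool.Agent.Results.MP_749578_co.SpLower
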