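import Pool.Agent.Lead.RookAll

namespace Pool.Agent.Results.MP_749578_co.SpUpper

open Pool.Agent.H18.RookB Pool.Agent.H18.RookD

theorem result (k : ℕ) (hk : 8 ≤ k) (h4 : 4 ∣ k) :
    (NSsp k : ℝ) ≤ 7 * (k : ℝ) ^ 2 / 8 + 2 * k + 2 :=
  (Pool.Agent.Lead.RookAll.all k (by omega)).2.2 hk h4

end Pool.Agent.Results.MP_749578_co.SpUpper
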